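import Pool.Agent.Helper67.KPG.St1

/-!
# Project KP (MP_26be5b_ag), chapter G: module JAC (Jacobson's lemma, trace form)
-/

set_option autoImplicit false

namespace Pool.Agent.Helper99.KPG

open Pool.Agent.Helper67.KPG

universe u

section

variable {V : Type u} [AddCommGroup V] [Module ℂ V]

/-- an endomorphism `C` such that all traces of `C * p(C)` vanish is nilpotent -/
private lemma nil_of_trace [FiniteDimensional ℂ V] (C : Module.End ℂ V)
    (h : ∀ p : Polynomial ℂ, LinearMap.trace ℂ V (C * Polynomial.aeval C p) = 0) :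
    IsNilpotent C := by
  have hq0 : minpoly ℂ C ≠ 0 := minpoly.ne_zero_of_finite ℂ C
  obtain ⟨r, hr, hd⟩ := (minpoly ℂ C).exists_eq_pow_rootMultiplicity_mul_and_not_dvd hq0 0
  rw [Polynomial.C_0, sub_zero] at hr hd
  set a := (minpoly ℂ C).rootMultiplicity 0 with ha
  have hcop : IsCoprime ((Polynomial.X : Polynomial ℂ) ^ (a + 1)) r :=
    IsCoprime.pow_left ((Polynomial.irreducible_X.coprime_iff_not_dvd).mpr hd)
  obtain ⟨p, q, hpq⟩ := hcop
  have hCr : C ^ (a + 1) * Polynomial.aeval C r = 0 := by
    have h1 := minpoly.aeval ℂ C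
    rw [hr, map_mul, map_pow, Polynomial.aeval_X] at h1
    rw [pow_succ', mul_assoc, h1, mul_zero]
  have h2 : Polynomial.aeval C p * C ^ (a + 1) + Polynomial.aeval C q * Polynomial.aeval C r = 1 := by
    have := congrArg (Polynomial.aeval C) hpq
    simpa using this
  set e := Polynomial.aeval C p * C ^ (a + 1) with he
  have hcomm : ∀ f : Polynomial ℂ, Commute (Polynomial.aeval C f) (C ^ (a + 1)) := by
    intro f
    have h3 : C ^ (a + 1) = Polynomial.aeval C ((Polynomial.X : Polynomial ℂ) ^ (a + 1)) := by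
      simp
    rw [h3]
    exact (Commute.all f (Polynomial.X ^ (a + 1))).map (Polynomial.aeval C)
  have hidem : IsIdempotentElem e := by
    have h4 : e * (1 - e) = 0 := by
      have h5 : 1 - e = Polynomial.aeval C q * Polynomial.aeval C r := by
        rw [← h2]
        abel
      rw [h5, he, mul_assoc, ← mul_assoc (C ^ (a + 1)), ← (hcomm q).eq, mul_assoc, hCr, mul_zero,
        mul_zero]
    rw [mul_sub, mul_one, sub_eq_zero] at h4
    exact h4.symm
  have htr : LinearMap.trace ℂ V e = 0 := by
    have h6 : e = C * Polynomial.aeval C (Polynomial.X ^ a * p) := by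
      rw [he, (hcomm p).eq, map_mul, map_pow, Polynomial.aeval_X, pow_succ', mul_assoc]
    rw [h6]
    exact h _
  have he0 : e = 0 := LinearMap.IsIdempotentElem.eq_zero_of_trace_eq_zero hidem htr
  rw [he0, zero_add] at h2
  refine ⟨a + 1, ?_⟩
  calc C ^ (a + 1) = C ^ (a + 1) * (Polynomial.aeval C q * Polynomial.aeval C r) := by
        rw [h2, mul_one]
    _ = Polynomial.aeval C q * (C ^ (a + 1) * Polynomial.aeval C r) := by
        rw [← mul_assoc, ← (hcomm q).eq, mul_assoc]
    _ = 0 := by rw [hCr, mul_zero]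

private lemma pow_comm {A B C : Module.End ℂ V} (hC : A * B - B * A = C) (hAC : A * C = C * A)
    (k : ℕ) : A ^ (k + 1) * B = B * A ^ (k + 1) + ((k : ℂ) + 1) • (C * A ^ k) := by
  have hAC' : ∀ k : ℕ, A ^ k * C = C * A ^ k := fun k => ((show Commute A C from hAC).pow_left k).eq
  have hAB : A * B = B * A + C := by rw [← hC]; abel
  induction k with
  | zero => simp [hAB]
  | succ k ih =>
    rw [pow_succ, mul_assoc, hAB, mul_add, ← mul_assoc, ih, hAC']
    rw [add_mul, smul_mul_assoc, mul_assoc C, ← pow_succ, mul_assoc B, ← pow_succ]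
    push_cast
    rw [add_smul ((k : ℂ) + 1), one_smul, add_assoc]

/-- the product of `A` and `B` is nilpotent -/
private lemma nil_mul {A B C : Module.End ℂ V} (hC : A * B - B * A = C) (hAC : A * C = C * A)
    (hA : IsNilpotent A) (hCn : IsNilpotent C) : IsNilpotent (A * B) := by
  obtain ⟨n, hn⟩ := hA
  obtain ⟨J, hJ⟩ := hCn
  -- powers of `A * B` on the kernel of `A ^ (k + 1)`
  have h1 : ∀ (k : ℕ) (v : V), (A ^ (k + 1)) v = 0 → ∀ j : ℕ,
      (A ^ (k + 1)) (((A * B) ^ j) v) = 0 ∧
        (A ^ k) (((A * B) ^ j) v) = ((k : ℂ) + 1) ^ j • (C ^ j) ((A ^ k) v) := by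
    intro k v hv j
    induction j with
    | zero => simp [hv]
    | succ j ih =>
      set w := ((A * B) ^ j) v with hw
      have e1 : ((A * B) ^ (j + 1)) v = A (B w) := by
        rw [pow_succ', Module.End.mul_apply, Module.End.mul_apply]
      have e2 : (A ^ (k + 1)) (B w) = ((k : ℂ) + 1) • C ((A ^ k) w) := by
        have := congrArg (fun f : Module.End ℂ V => f w) (pow_comm hC hAC k)
        simp only [Module.End.mul_apply, LinearMap.add_apply, LinearMap.smul_apply] at this
        rw [this, ih.1, map_zero, zero_add]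
      have e3 : (A ^ k) (A (B w)) = (A ^ (k + 1)) (B w) := by
        rw [pow_succ, Module.End.mul_apply]
      constructor
      · rw [e1]
        have e4 : (A ^ (k + 1)) (A (B w)) = A ((A ^ (k + 1)) (B w)) := by
          have h0 : A ^ (k + 1) * A = A * A ^ (k + 1) := by rw [← pow_succ, ← pow_succ']
          exact congrArg (fun f : Module.End ℂ V => f (B w)) h0
        have e5 : A (C ((A ^ k) w)) = C ((A ^ (k + 1)) w) := by
          rw [← Module.End.mul_apply, hAC, Module.End.mul_apply, pow_succ', Module.End.mul_apply]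
        rw [e4, e2, map_smul, e5, ih.1, map_zero, smul_zero]
      · rw [e1, e3, e2, ih.2, map_smul, smul_smul, pow_succ' C, Module.End.mul_apply, ← pow_succ']
  have h2 : ∀ (k : ℕ) (v : V), (A ^ k) v = 0 → ((A * B) ^ (J * k)) v = 0 := by
    intro k
    induction k with
    | zero =>
      intro v hv
      simpa using hv
    | succ k ih =>
      intro v hv
      have h3 := (h1 k v hv J).2
      rw [hJ, LinearMap.zero_apply, smul_zero] at h3
      have h4 := ih _ h3
      rw [← Module.End.mul_apply, ← pow_add] at h4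
      rwa [Nat.mul_succ]
  refine ⟨J * n, ?_⟩
  ext v
  rw [LinearMap.zero_apply]
  exact h2 n v (by rw [hn, LinearMap.zero_apply])

end

/-- MODULE JAC (Jacobson's lemma, trace form). -/
theorem hJAC : StJAC.{u} := by
  intro V _ _ _ A B hA hAC
  have hAC' : (A : Module.End ℂ V) * (A * B - B * A) = (A * B - B * A) * A := hAC
  have hcomm : Commute (A : Module.End ℂ V) (A * B - B * A) := hAC'
  have hCn : IsNilpotent ((A : Module.End ℂ V) * B - B * A) := by
    apply nil_of_trace
    intro p
    set P := Polynomial.aeval ((A : Module.End ℂ V) * B - B * A) p with hP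
    have hAP : Commute (A : Module.End ℂ V) P := by
      rw [hP, Polynomial.aeval_eq_sum_range]
      exact Commute.sum_right _ _ _ fun i _ => (hcomm.pow_right i).smul_right _
    have h1 : ((A : Module.End ℂ V) * B - B * A) * P = A * (B * P) - (B * P) * A := by
      rw [sub_mul, mul_assoc, mul_assoc, mul_assoc, hAP.eq]
    rw [h1, map_sub, LinearMap.trace_mul_comm, sub_self]
  have h := nil_mul rfl hAC' hA hCn
  have h1 := LinearMap.isNilpotent_trace_of_isNilpotent h
  exact h1.eq_zero

end Pool.Agent.Helper99.KPG
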